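import Pool.Agent.W518.SMR.Defs

/-! # Space curves on quadrics and pencils -/

open scoped WithZero
open WithZero

namespace Pool.Agent.W518.SMR

open Pool.Agent.Helper395.CS hiding genus
open Pool.Agent.Helper395.BC

variable {K : Type} [Field K] [Algebra ℂ K]

/-- The line bundle of the pole divisor of `f`. -/
noncomputable def lpole (hK : IsCurve K) (f : Kˣ) : LineBundle K := by
  classical
  exact
  { frame := fun v => if v.val (f : K) ≤ 1 then 1 else f
    finite := (finite_ord hK (f : K)).subset fun v hv h => by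
      apply hv
      by_cases h1 : v.val (f : K) ≤ 1
      · simp only [if_pos h1, Units.val_one, map_one]
      · simp only [if_neg h1]
        exact (v.val_eq_one_iff f.ne_zero).2 h }

theorem lpole_val (hK : IsCurve K) (f : Kˣ) (v : Point K) :
    v.val ((lpole hK f).frame v : K) = max 1 (v.val (f : K)) := by
  classical
  change v.val ((if v.val (f : K) ≤ 1 then 1 else f : Kˣ) : K) = _
  split_ifs with h
  · rw [Units.val_one, map_one, max_eq_left h]
  · rw [max_eq_right (not_le.1 h).le]

theorem two_le_h0_lpole (hK : IsCurve K) (hg : genus K ≠ 0) (f : Kˣ)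
    (hf : ∀ c : ℂ, (f : K) ≠ algebraMap ℂ K c) :
    2 ≤ Module.finrank ℂ (H0 (lpole hK f)) := by
  have hfin := H0_finite hK hg (lpole hK f)
  have h1 : (1 : K) ∈ H0 (lpole hK f) := fun v => by
    change v.val (1 : K) ≤ v.val _
    rw [lpole_val, map_one]
    exact le_max_left _ _
  have h2 : (f : K) ∈ H0 (lpole hK f) := fun v => by
    change v.val (f : K) ≤ v.val _
    rw [lpole_val]
    exact le_max_right _ _
  have hli : LinearIndependent ℂ ![(⟨1, h1⟩ : H0 (lpole hK f)), ⟨(f : K), h2⟩] := by
    rw [LinearIndependent.pair_iff]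
    intro s t hst
    have h3 : s • (1 : K) + t • (f : K) = 0 := congrArg Subtype.val hst
    have ht : t = 0 := by
      by_contra ht
      apply hf (-s / t)
      rw [Algebra.smul_def, Algebra.smul_def, mul_one] at h3
      have ht' : algebraMap ℂ K t ≠ 0 := (map_ne_zero _).2 ht
      rw [map_div₀, map_neg]
      field_simp
      linear_combination h3
    refine ⟨?_, ht⟩
    rw [ht, zero_smul, add_zero, Algebra.smul_def, mul_one] at h3
    exact (map_eq_zero _).1 h3
  have := hli.fintype_card_le_finrank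
  simpa using this

/-- If `ab = cd` with sections `a, b, c, d` of `L` and `deg L` is smaller than twice the gonality,
`c` or `d` is a constant multiple of `a`. -/
theorem pencil_aux (hK : IsCurve K) (hg : genus K ≠ 0) {γ : ℤ}
    (hγ : ∀ M : LineBundle K, M.degree < γ → Module.finrank ℂ (H0 M) ≤ 1)
    {L : LineBundle K} (hL : L.degree < 2 * γ) {a b c d : K} (ha : a ∈ H0 L) (hb : b ∈ H0 L)
    (hc : c ∈ H0 L) (hd : d ∈ H0 L) (ha0 : a ≠ 0) (hc0 : c ≠ 0) (hd0 : d ≠ 0)
    (h : a * b = c * d) : (∃ t : ℂ, c = t • a) ∨ (∃ t : ℂ, d = t • a) := by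
  by_contra hcon
  push Not at hcon
  obtain ⟨h1, h2⟩ := hcon
  let F : Kˣ := Units.mk0 (c / a) (div_ne_zero hc0 ha0)
  let H : Kˣ := Units.mk0 (d / a) (div_ne_zero hd0 ha0)
  have hF : γ ≤ (lpole hK F).degree := by
    by_contra hlt
    have h3 := two_le_h0_lpole hK hg F (fun t ht => h1 t (by
      have h4 : c / a = algebraMap ℂ K t := ht
      rw [Algebra.smul_def, ← h4, div_mul_cancel₀ _ ha0]))
    have := hγ _ (not_le.1 hlt)
    omega
  have hH : γ ≤ (lpole hK H).degree := by
    by_contra hlt
    have h3 := two_le_h0_lpole hK hg H (fun t ht => h2 t (by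
      have h4 : d / a = algebraMap ℂ K t := ht
      rw [Algebra.smul_def, ← h4, div_mul_cancel₀ _ ha0]))
    have := hγ _ (not_le.1 hlt)
    omega
  let N : LineBundle K := lmul (lprin hK (Units.mk0 a ha0)) (lmul (lpole hK F) (lpole hK H))
  have hN : N.degree ≤ L.degree := by
    apply ldegree_le hK
    intro v s hs
    change v.val s ≤ v.val ((Units.mk0 a ha0 * ((lpole hK F).frame v * (lpole hK H).frame v) : Kˣ) : K)
      at hs
    rw [Units.val_mul, Units.val_mul, map_mul, map_mul, lpole_val, lpole_val, Units.val_mk0] at hs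
    refine hs.trans ?_
    change _ ≤ v.val (L.frame v : K)
    have e1 : v.val a ≤ v.val (L.frame v : K) := ha v
    have e2 : v.val b ≤ v.val (L.frame v : K) := hb v
    have e3 : v.val c ≤ v.val (L.frame v : K) := hc v
    have e4 : v.val d ≤ v.val (L.frame v : K) := hd v
    have hF' : v.val (F : K) = v.val (c / a) := rfl
    have hH' : v.val (H : K) = v.val (d / a) := rfl
    rw [hF', hH']
    rcases le_total 1 (v.val (c / a)) with h3 | h3 <;> rcases le_total 1 (v.val (d / a)) with h4 | h4
    · rw [max_eq_right h3, max_eq_right h4, ← map_mul, ← map_mul]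
      have : a * (c / a * (d / a)) = b := by
        field_simp
        linear_combination -h
      rwa [this]
    · rw [max_eq_right h3, max_eq_left h4, mul_one, ← map_mul, mul_div_cancel₀ _ ha0]
      exact e3
    · rw [max_eq_left h3, max_eq_right h4, one_mul, ← map_mul, mul_div_cancel₀ _ ha0]
      exact e4
    · rw [max_eq_left h3, max_eq_left h4, one_mul, mul_one]
      exact e1
  have hN' : N.degree = (lpole hK F).degree + (lpole hK H).degree := by
    rw [lmul_degree, lmul_degree, lprin_degree, zero_add]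
  omega

/-- There is no quadratic relation. -/
theorem no_relation (hK : IsCurve K) (hg : genus K ≠ 0) {γ : ℤ}
    (hγ : ∀ M : LineBundle K, M.degree < γ → Module.finrank ℂ (H0 M) ≤ 1)
    {L : LineBundle K} (hL : L.degree < 2 * γ) (t : Fin 4 → K) (ht : ∀ i, t i ∈ H0 L)
    (hli : LinearIndependent ℂ t) (d : Fin 4 → ℂ) (h : ∑ i, d i • (t i * t i) = 0) : d = 0 := by
  classical
  choose e he using fun i => IsAlgClosed.exists_pow_nat_eq (d i) (n := 2) two_pos
  -- square roots
  have hI : (Complex.I : ℂ) * Complex.I = -1 := Complex.I_mul_I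
  set u : Fin 4 → K := fun i => e i • t i with hu
  have hsum : u 0 * u 0 + u 1 * u 1 + u 2 * u 2 + u 3 * u 3 = 0 := by
    rw [Fin.sum_univ_four] at h
    rw [← h]
    simp only [hu, ← he, Algebra.smul_def, map_pow]
    ring
  have hlin : ∀ c : Fin 4 → ℂ, ∑ i, c i • t i = 0 → ∀ i, c i = 0 :=
    Fintype.linearIndependent_iff.1 hli
  let i' : K := algebraMap ℂ K Complex.I
  have hi' : i' * i' = -1 := by
    change algebraMap ℂ K Complex.I * algebraMap ℂ K Complex.I = -1
    rw [← map_mul, hI, map_neg, map_one]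
  set a : K := u 0 + i' * u 1 with ha
  set b : K := u 0 - i' * u 1 with hb
  set c : K := -(u 2 + i' * u 3) with hc
  set f : K := u 2 - i' * u 3 with hf
  have hrel : a * b = c * f := by
    rw [ha, hb, hc, hf]
    linear_combination hsum - (u 1 * u 1) * hi' - (u 3 * u 3) * hi'
  have hmem : ∀ (x y : ℂ) (i j : Fin 4), x • t i + y • t j ∈ H0 L := fun x y i j =>
    (H0 L).add_mem ((H0 L).smul_mem _ (ht i)) ((H0 L).smul_mem _ (ht j))
  have ea : a = e 0 • t 0 + (Complex.I * e 1) • t 1 := by
    simp only [ha, hu, i', Algebra.smul_def, map_mul]; ring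
  have eb : b = e 0 • t 0 + (-(Complex.I * e 1)) • t 1 := by
    simp only [hb, hu, i', Algebra.smul_def, map_mul, map_neg]; ring
  have ec : c = (-e 2) • t 2 + (-(Complex.I * e 3)) • t 3 := by
    simp only [hc, hu, i', Algebra.smul_def, map_mul, map_neg]; ring
  have ef : f = e 2 • t 2 + (-(Complex.I * e 3)) • t 3 := by
    simp only [hf, hu, i', Algebra.smul_def, map_mul, map_neg]; ring
  have hI0 : (Complex.I : ℂ) ≠ 0 := Complex.I_ne_zero
  -- if `a = 0` or `b = 0` then `e 0 = e 1 = 0`
  have key01 : ∀ x y : ℂ, x • t 0 + y • t 1 = 0 → x = 0 ∧ y = 0 := by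
    intro x y hxy
    have := hlin ![x, y, 0, 0] (by simpa [Fin.sum_univ_four] using hxy)
    exact ⟨this 0, this 1⟩
  have key23 : ∀ x y : ℂ, x • t 2 + y • t 3 = 0 → x = 0 ∧ y = 0 := by
    intro x y hxy
    have := hlin ![0, 0, x, y] (by simpa [Fin.sum_univ_four] using hxy)
    exact ⟨this 2, this 3⟩
  have fin : (e 0 = 0 ∧ e 1 = 0) → (e 2 = 0 ∧ e 3 = 0) → d = 0 := by
    rintro ⟨h0, h1⟩ ⟨h2, h3⟩
    funext i
    fin_cases i
    · have := he 0; rw [h0] at this; simpa using this.symm
    · have := he 1; rw [h1] at this; simpa using this.symm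
    · have := he 2; rw [h2] at this; simpa using this.symm
    · have := he 3; rw [h3] at this; simpa using this.symm
  by_cases hab : a = 0 ∨ b = 0
  · have h01 : e 0 = 0 ∧ e 1 = 0 := by
      rcases hab with h0 | h0
      · rw [ea] at h0
        obtain ⟨h1, h2⟩ := key01 _ _ h0
        exact ⟨h1, (mul_eq_zero.1 h2).resolve_left hI0⟩
      · rw [eb] at h0
        obtain ⟨h1, h2⟩ := key01 _ _ h0
        exact ⟨h1, (mul_eq_zero.1 (neg_eq_zero.1 h2)).resolve_left hI0⟩
    have hcf : c * f = 0 := by
      rw [← hrel]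
      rcases hab with h0 | h0 <;> rw [h0] <;> ring
    have h23 : e 2 = 0 ∧ e 3 = 0 := by
      rcases mul_eq_zero.1 hcf with h0 | h0
      · rw [ec] at h0
        obtain ⟨h1, h2⟩ := key23 _ _ h0
        exact ⟨neg_eq_zero.1 h1, (mul_eq_zero.1 (neg_eq_zero.1 h2)).resolve_left hI0⟩
      · rw [ef] at h0
        obtain ⟨h1, h2⟩ := key23 _ _ h0
        exact ⟨h1, (mul_eq_zero.1 (neg_eq_zero.1 h2)).resolve_left hI0⟩
    exact fin h01 h23
  · push Not at hab
    obtain ⟨ha0, hb0⟩ := hab
    have hcf : c * f ≠ 0 := by rw [← hrel]; exact mul_ne_zero ha0 hb0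
    have hc0 : c ≠ 0 := left_ne_zero_of_mul hcf
    have hf0 : f ≠ 0 := right_ne_zero_of_mul hcf
    exfalso
    have hmema : a ∈ H0 L := by rw [ea]; exact hmem _ _ _ _
    have hmemb : b ∈ H0 L := by rw [eb]; exact hmem _ _ _ _
    have hmemc : c ∈ H0 L := by rw [ec]; exact hmem _ _ _ _
    have hmemf : f ∈ H0 L := by rw [ef]; exact hmem _ _ _ _
    rcases pencil_aux hK hg hγ hL hmema hmemb hmemc hmemf ha0 hc0 hf0 hrel with ⟨s, hs⟩ | ⟨s, hs⟩
    · apply hc0
      rw [ec, ea] at hs
      have := hlin ![-(s * e 0), -(s * (Complex.I * e 1)), -e 2, -(Complex.I * e 3)] (by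
        rw [Fin.sum_univ_four]
        simp only [Matrix.cons_val_zero, Matrix.cons_val_one, Matrix.cons_val]
        rw [smul_add, smul_smul, smul_smul] at hs
        rw [neg_smul (s * e 0), neg_smul (s * (Complex.I * e 1))]
        rw [← sub_eq_zero] at hs
        rw [← hs]
        abel)
      have h2 : -e 2 = 0 := this 2
      have h3 : -(Complex.I * e 3) = 0 := this 3
      rw [ec, h2, h3, zero_smul, zero_smul, add_zero]
    · apply hf0
      rw [ef, ea] at hs
      have := hlin ![-(s * e 0), -(s * (Complex.I * e 1)), e 2, -(Complex.I * e 3)] (by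
        rw [Fin.sum_univ_four]
        simp only [Matrix.cons_val_zero, Matrix.cons_val_one, Matrix.cons_val]
        rw [smul_add, smul_smul, smul_smul] at hs
        rw [neg_smul (s * e 0), neg_smul (s * (Complex.I * e 1))]
        rw [← sub_eq_zero] at hs
        rw [← hs]
        abel)
      have h2 : e 2 = 0 := this 2
      have h3 : -(Complex.I * e 3) = 0 := this 3
      rw [ef, h2, h3, zero_smul, zero_smul, add_zero]

end Pool.Agent.W518.SMR
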