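import Pool.Agent.Helper395.BC.Pencil
import Pool.Agent.Helper395.BC.Duality

/-!
# Linear series on curves and the multiplication map on quadrics: definitions

A smooth projective curve `C` over `ℂ` is given by its function field `K`, line bundles by local
generators, see `Pool/Agent/Helper395/CS/Defs.lean`; `H0 L` is the space of global sections of `L`,
`lmul L M` is the tensor product `L ⊗ M` and `genus K = dim H¹(C, 𝒪_C)`.
-/

namespace Pool.Agent.W518.SMR

open Pool.Agent.Helper395.CS hiding genus
open Pool.Agent.Helper395.BC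

/-- A linear series `l = (L, V) ∈ G^r_d(C)`: a line bundle `L` of degree `d` and a subspace
`V ⊆ H⁰(C, L)` of dimension `r + 1`. -/
structure LinearSeries (K : Type) [Field K] [Algebra ℂ K] (r d : ℕ) where
  /-- the line bundle `L` -/
  bundle : LineBundle K
  degree_eq : bundle.degree = d
  /-- the space `V` of sections -/
  space : Submodule ℂ K
  le_sections : space ≤ H0 bundle
  finrank_eq : Module.finrank ℂ space = r + 1

variable {K : Type} [Field K] [Algebra ℂ K] {r d : ℕ}

/-- The image `V · V` (the `ℂ`-span of all products) of the multiplication map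
`ν₂(l) : Sym² V → H⁰(C, L ⊗ L)`. -/
def LinearSeries.image (l : LinearSeries K r d) : Submodule ℂ K := l.space * l.space

variable (K r d) in
/-- The locus `Quad^r_{g,d}(C)` of all `l ∈ G^r_d(C)` such that `ν₂(l)` is not of maximal rank, i.e.
the rank of `ν₂(l)` is smaller than the dimensions `(r+2 choose 2)` of `Sym² V` and `h⁰(L ⊗ L)` of the
target. -/
def Quad : Set (LinearSeries K r d) :=
  {l | Module.finrank ℂ l.image <
    min ((r + 2).choose 2) (Module.finrank ℂ (H0 (lmul l.bundle l.bundle)))}

/-- The Brill-Noether number `ρ(g, r, d) = g - (r + 1)(g - d + r)`. -/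
def rho (g r d : ℕ) : ℤ := (g : ℤ) - (r + 1) * (g - d + r)

/-- The expected dimension `ρ(g, r, d) - 1 - |2d + 1 - g - (r+2 choose 2)|` of `Quad^r_{g,d}(C)`. -/
def expectedDim (g r d : ℕ) : ℤ :=
  rho g r d - 1 - |2 * (d : ℤ) + 1 - g - ((r + 2).choose 2 : ℕ)|

end Pool.Agent.W518.SMR
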